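import Pool.Agent.helper14.XG.Spec

set_option autoImplicit false

namespace Pool.Agent.XG

open Finset Pool.Agent.XT

theorem C6L_alg (K Q W E X C₀ : ℝ) (hK : 1 ≤ K) (hQ : 0 ≤ Q) (hW : 0 ≤ W) (hE : 0 ≤ E)
    (hX : 0 ≤ X) (h1 : W ≤ 1 / (1000 * K ^ 4) * Q + C₀ * X)
    (h2 : Q ≤ W + 3 * K ^ 2 * (E + W)) (h3 : E ^ 2 ≤ (60020 * X + W) * Q) :
    Q ≤ (1 + 60020 * 32 * K ^ 4 + 1000 * K ^ 4 * |C₀|) * X := by
  have hK2 : 1 ≤ K ^ 2 := one_le_pow₀ hK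
  have hK4 : 1 ≤ K ^ 4 := one_le_pow₀ hK
  have hK4' : 0 < K ^ 4 := by linarith
  have habs : C₀ ≤ |C₀| := le_abs_self _
  have habs0 : 0 ≤ |C₀| := abs_nonneg _
  rcases le_or_gt (C₀ * X) (1 / (1000 * K ^ 4) * Q) with hc | hc
  · -- main case
    have hW2 : W * (500 * K ^ 4) ≤ Q := by
      have h4 : W ≤ 2 * (1 / (1000 * K ^ 4) * Q) := by linarith
      have h5 : W * (500 * K ^ 4) ≤ 2 * (1 / (1000 * K ^ 4) * Q) * (500 * K ^ 4) :=
        mul_le_mul_of_nonneg_right h4 (by positivity)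
      have h6 : 2 * (1 / (1000 * K ^ 4) * Q) * (500 * K ^ 4) = Q := by
        field_simp
        ring
      linarith
    -- E is large
    have hE2 : Q ≤ 4 * K ^ 2 * E := by
      -- W + 3 K^2 W ≤ 4 K^2 W ≤ Q / 4
      have h7 : W + 3 * K ^ 2 * W ≤ 4 * K ^ 2 * W := by nlinarith
      have h8 : 4 * K ^ 2 * W ≤ Q / 4 := by
        have h9 : K ^ 2 ≤ K ^ 4 := by nlinarith [sq_nonneg K]
        have h10 : K ^ 2 * W ≤ K ^ 4 * W := mul_le_mul_of_nonneg_right h9 hW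
        nlinarith
      have h11 : Q ≤ Q / 4 + 3 * K ^ 2 * E := by nlinarith
      linarith
    have hE3 : Q ^ 2 ≤ 16 * K ^ 4 * ((60020 * X + W) * Q) := by
      have h12 : Q ^ 2 ≤ (4 * K ^ 2 * E) ^ 2 := pow_le_pow_left₀ hQ hE2 2
      have h13 : (4 * K ^ 2 * E) ^ 2 = 16 * K ^ 4 * E ^ 2 := by ring
      have h14 : 16 * K ^ 4 * E ^ 2 ≤ 16 * K ^ 4 * ((60020 * X + W) * Q) :=
        mul_le_mul_of_nonneg_left h3 (by positivity)
      linarith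
    rcases hQ.eq_or_lt with h0 | hpos
    · rw [← h0]
      positivity
    · have h15 : Q ≤ 16 * K ^ 4 * (60020 * X + W) := by
        have h16 : Q * Q ≤ (16 * K ^ 4 * (60020 * X + W)) * Q := by nlinarith
        exact le_of_mul_le_mul_right h16 hpos
      have h17 : 16 * K ^ 4 * W ≤ Q / 2 := by nlinarith
      have h18 : Q ≤ 60020 * 32 * K ^ 4 * X := by nlinarith
      have h19 : 60020 * 32 * K ^ 4 * X ≤ (1 + 60020 * 32 * K ^ 4 + 1000 * K ^ 4 * |C₀|) * X := by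
        apply mul_le_mul_of_nonneg_right _ hX
        have : 0 ≤ 1000 * K ^ 4 * |C₀| := by positivity
        linarith
      linarith
  · have h4 : Q ≤ 1000 * K ^ 4 * (C₀ * X) := by
      have h5 : 1 / (1000 * K ^ 4) * Q * (1000 * K ^ 4) ≤ C₀ * X * (1000 * K ^ 4) :=
        mul_le_mul_of_nonneg_right hc.le (by positivity)
      have h6 : 1 / (1000 * K ^ 4) * Q * (1000 * K ^ 4) = Q := by
        field_simp
      linarith
    have h7 : C₀ * X ≤ |C₀| * X := mul_le_mul_of_nonneg_right habs hX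
    have h8 : 1000 * K ^ 4 * (C₀ * X) ≤ 1000 * K ^ 4 * (|C₀| * X) :=
      mul_le_mul_of_nonneg_left h7 (by positivity)
    have h9 : 0 ≤ (1 + 60020 * 32 * K ^ 4) * X := by positivity
    nlinarith

theorem C6L (hNWT : NWT_stmt) (hC6E : C6E_stmt) (hC6T : C6T_stmt) (hC6S : C6S_stmt) :
    C6L_stmt := by
  have hK : (1 : ℝ) ≤ (KK : ℝ) := by
    unfold KK
    norm_num
  obtain ⟨C₀, hC₀⟩ := hNWT (1 / (1000 * (KK : ℝ) ^ 4)) (by positivity)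
  refine ⟨1 + 60020 * 32 * (KK : ℝ) ^ 4 + 1000 * (KK : ℝ) ^ 4 * |C₀|, ?_, ?_⟩
  · have h1 : 0 ≤ 60020 * 32 * (KK : ℝ) ^ 4 := by positivity
    have h2 : 0 ≤ 1000 * (KK : ℝ) ^ 4 * |C₀| := by positivity
    linarith
  intro n D B Nr F hSy hDg hD
  have a1 := hC₀ n D B Nr F hSy hDg hD
  have a2 := hC6E n B Nr F hSy
  have a3 := hC6S n D B Nr F hSy hDg
  have a2' : (QQ B Nr : ℝ) ≤ ((∑ e : Fin n × Fin n, NW B Nr F e.1 e.2 : ℕ) : ℝ) +
      3 * (KK : ℝ) ^ 2 * (((∑ e : Fin n × Fin n, ES B Nr F e.1 e.2 : ℕ) : ℝ) +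
        ((∑ e : Fin n × Fin n, NW B Nr F e.1 e.2 : ℕ) : ℝ)) := by exact_mod_cast a2
  have hCS : (((∑ e : Fin n × Fin n, ES B Nr F e.1 e.2 : ℕ) : ℝ)) ^ 2 ≤
      (60020 * ((n : ℝ) * (D : ℝ) ^ 3) +
        ((∑ e : Fin n × Fin n, NW B Nr F e.1 e.2 : ℕ) : ℝ)) * (QQ B Nr : ℝ) := by
    have b1 : ∀ e : Fin n × Fin n, (ES B Nr F e.1 e.2 : ℝ) =
        (ES B Nr F e.1 e.2 : ℝ) / (nn B Nr e.1 e.2 : ℝ) * (nn B Nr e.1 e.2 : ℝ) := by
      intro e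
      rcases Nat.eq_zero_or_pos (nn B Nr e.1 e.2) with h0 | hpos
      · have h1 := hC6T n B Nr F hSy e.1 e.2
        rw [h0, zero_mul] at h1
        have h2 : ES B Nr F e.1 e.2 = 0 := by
          have := Nat.le_zero.1 h1
          exact pow_eq_zero_iff (two_ne_zero) |>.1 this
        rw [h2, h0]
        simp
      · have : (nn B Nr e.1 e.2 : ℝ) ≠ 0 := by
          have : (0 : ℝ) < (nn B Nr e.1 e.2 : ℝ) := by exact_mod_cast hpos
          exact this.ne'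
        field_simp
    have b2 : ∀ e : Fin n × Fin n, ((ES B Nr F e.1 e.2 : ℝ) / (nn B Nr e.1 e.2 : ℝ)) ^ 2 ≤
        (TS B Nr F e.1 e.2 : ℝ) / (nn B Nr e.1 e.2 : ℝ) + (NW B Nr F e.1 e.2 : ℝ) := by
      intro e
      rcases Nat.eq_zero_or_pos (nn B Nr e.1 e.2) with h0 | hpos
      · rw [h0]
        simp
      · have h1 := hC6T n B Nr F hSy e.1 e.2
        have h1' : (ES B Nr F e.1 e.2 : ℝ) ^ 2 ≤ (nn B Nr e.1 e.2 : ℝ) *
            ((TS B Nr F e.1 e.2 : ℝ) + (NW B Nr F e.1 e.2 : ℝ) * (nn B Nr e.1 e.2 : ℝ)) := by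
          exact_mod_cast h1
        have hp : (0 : ℝ) < (nn B Nr e.1 e.2 : ℝ) := by exact_mod_cast hpos
        rw [div_pow, div_le_iff₀ (by positivity)]
        refine h1'.trans (le_of_eq ?_)
        field_simp
    have b3 := sum_mul_sq_le_sq_mul_sq (univ : Finset (Fin n × Fin n))
      (fun e => (ES B Nr F e.1 e.2 : ℝ) / (nn B Nr e.1 e.2 : ℝ))
      (fun e => (nn B Nr e.1 e.2 : ℝ))
    have b4 : ∑ e : Fin n × Fin n, (ES B Nr F e.1 e.2 : ℝ) / (nn B Nr e.1 e.2 : ℝ) *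
        (nn B Nr e.1 e.2 : ℝ) = ((∑ e : Fin n × Fin n, ES B Nr F e.1 e.2 : ℕ) : ℝ) := by
      rw [Nat.cast_sum]
      exact sum_congr rfl (fun e _ => (b1 e).symm)
    have b5 : ∑ e : Fin n × Fin n, (nn B Nr e.1 e.2 : ℝ) ^ 2 = (QQ B Nr : ℝ) := by
      unfold QQ
      push_cast
      rfl
    have b6 : ∑ e : Fin n × Fin n, ((ES B Nr F e.1 e.2 : ℝ) / (nn B Nr e.1 e.2 : ℝ)) ^ 2 ≤
        60020 * ((n : ℝ) * (D : ℝ) ^ 3) +
        ((∑ e : Fin n × Fin n, NW B Nr F e.1 e.2 : ℕ) : ℝ) := by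
      calc ∑ e : Fin n × Fin n, ((ES B Nr F e.1 e.2 : ℝ) / (nn B Nr e.1 e.2 : ℝ)) ^ 2
          ≤ ∑ e : Fin n × Fin n, ((TS B Nr F e.1 e.2 : ℝ) / (nn B Nr e.1 e.2 : ℝ) +
            (NW B Nr F e.1 e.2 : ℝ)) := sum_le_sum (fun e _ => b2 e)
        _ = ∑ e : Fin n × Fin n, (TS B Nr F e.1 e.2 : ℝ) / (nn B Nr e.1 e.2 : ℝ) +
            ∑ e : Fin n × Fin n, (NW B Nr F e.1 e.2 : ℝ) := sum_add_distrib
        _ ≤ _ := by
            rw [Nat.cast_sum]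
            linarith
    rw [b4, b5] at b3
    refine b3.trans ?_
    exact mul_le_mul_of_nonneg_right b6 (Nat.cast_nonneg _)
  have hfin := C6L_alg (KK : ℝ) (QQ B Nr : ℝ)
    ((∑ e : Fin n × Fin n, NW B Nr F e.1 e.2 : ℕ) : ℝ)
    ((∑ e : Fin n × Fin n, ES B Nr F e.1 e.2 : ℕ) : ℝ) ((n : ℝ) * (D : ℝ) ^ 3) C₀ hK
    (Nat.cast_nonneg _) (Nat.cast_nonneg _) (Nat.cast_nonneg _) (by positivity)
    (by rw [← mul_assoc]; exact a1) a2' hCS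
  rw [mul_assoc _ (n : ℝ) ((D : ℝ) ^ 3)]
  exact hfin

end Pool.Agent.XG
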