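import Pool.Agent.helper14.XG.Spec

set_option autoImplicit false

namespace Pool.Agent.XG

open Finset Pool.Agent.XT

theorem C6U_NS {n : ℕ} (B : FS n) (Nr : Fin n → Fin n → Prop) (l y x : Fin n) :
    x ∈ NS B Nr l y ↔ (y, l) ∉ B ∧ (x, l) ∈ B ∧ Lt B Nr x y := by
  unfold NS
  simp

theorem C6U (hBAS : BAS_stmt) (hSTW : STW_stmt) : C6U_stmt := by
  classical
  intro n B Nr F hSy l a b c
  obtain ⟨_, hLs, _, _, _, _, _, _⟩ := hBAS n B Nr F hSy
  rcases (univ.filter (fun y => T3 B Nr F l y a b c)).eq_empty_or_nonempty with hem | hne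
  · rw [hem]
    simp
  obtain ⟨y₁, hy₁⟩ := hne
  obtain ⟨⟨_, _, hw1, _⟩, ⟨_, _, hw2, _⟩, hw3⟩ := (mem_filter.1 hy₁).2
  have hab : a ≠ b := hw1.1.1
  have hbc : b ≠ c := hw2.1.1
  have hac : a ≠ c := hw3.1.1
  have hx : Function.Injective (![a, c, b] : Fin 3 → Fin n) := by
    intro i j hij
    fin_cases i <;> fin_cases j <;> simp at hij ⊢
    · exact hac hij
    · exact hab hij
    · exact hac hij.symm
    · exact hbc hij.symm
    · exact hab hij.symm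
    · exact hbc hij
  have hch : ∀ y, T3 B Nr F l y a b c → ∃ s : Fin 3 → Fin n,
      ((a, s 0) ∈ B ∧ (y, s 0) ∈ B ∧ (b, s 0) ∉ B ∧ nn B Nr (s 0) b ≤ nn B Nr l y) ∧
      ((c, s 1) ∈ B ∧ (y, s 1) ∈ B ∧ (b, s 1) ∉ B ∧ nn B Nr (s 1) b ≤ nn B Nr l y) ∧
      ((b, s 2) ∈ B ∧ (y, s 2) ∈ B ∧ (a, s 2) ∉ B ∧ nn B Nr (s 2) a ≤ nn B Nr l y) := by
    intro y hy
    obtain ⟨⟨_, _, _, s, m, h1, h2, h3, h4, h5, h6, h7, h8⟩,
      ⟨_, _, _, s', m', g1, g2, g3, g4, g5, g6, g7, g8⟩, _⟩ := hy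
    exact ⟨![s, m', m], ⟨h1, h2, h3, h7⟩, ⟨g4, g5, g6, g8⟩, ⟨h4, h5, h6, h8⟩⟩
  have hch' : ∀ y, ∃ s : Fin 3 → Fin n, T3 B Nr F l y a b c →
      ((a, s 0) ∈ B ∧ (y, s 0) ∈ B ∧ (b, s 0) ∉ B ∧ nn B Nr (s 0) b ≤ nn B Nr l y) ∧
      ((c, s 1) ∈ B ∧ (y, s 1) ∈ B ∧ (b, s 1) ∉ B ∧ nn B Nr (s 1) b ≤ nn B Nr l y) ∧
      ((b, s 2) ∈ B ∧ (y, s 2) ∈ B ∧ (a, s 2) ∉ B ∧ nn B Nr (s 2) a ≤ nn B Nr l y) := by
    intro y
    by_cases hy : T3 B Nr F l y a b c
    · obtain ⟨s, hs⟩ := hch y hy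
      exact ⟨s, fun _ => hs⟩
    · exact ⟨fun _ => a, fun h => absurd h hy⟩
  choose s hs using hch'
  apply hSTW n B Nr F hSy ![a, c, b] (univ.filter (fun y => T3 B Nr F l y a b c)) s
    (fun y => (nn B Nr l y : ℝ)) hx
  · intro y hy
    have hT := (mem_filter.1 hy).2
    obtain ⟨⟨h1, h2, h3, h4⟩, ⟨h5, h6, h7, h8⟩, ⟨h9, h10, h11, h12⟩⟩ := hs y hT
    obtain ⟨⟨ha, hb, hwab, _⟩, ⟨_, hc, hwbc, _⟩, hwac⟩ := hT
    have la := ((C6U_NS B Nr l y a).1 ha).2.2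
    have lb := ((C6U_NS B Nr l y b).1 hb).2.2
    have lc := ((C6U_NS B Nr l y c).1 hc).2.2
    refine ⟨?_, lb.2.1, ?_, ?_, ?_⟩
    · intro i
      fin_cases i
      · exact la.1
      · exact lc.1
      · exact lb.1
    · have e01 : s y 0 ≠ s y 1 := by
        intro h
        exact hwac.2.1 (s y 0) ⟨h1, by rw [h]; exact h5, h2⟩
      have e02 : s y 0 ≠ s y 2 := by
        intro h
        exact h3 (by rw [h]; exact h9)
      have e12 : s y 1 ≠ s y 2 := by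
        intro h
        exact h7 (by rw [h]; exact h9)
      intro i j hij
      fin_cases i <;> fin_cases j
      · rfl
      · exact absurd hij e01
      · exact absurd hij e02
      · exact absurd hij.symm e01
      · rfl
      · exact absurd hij e12
      · exact absurd hij.symm e02
      · exact absurd hij.symm e12
      · rfl
    · intro i
      fin_cases i
      · exact ⟨h1, h2⟩
      · exact ⟨h5, h6⟩
      · exact ⟨h9, h10⟩
    · intro i hi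
      fin_cases i
      · refine ⟨hwab.2.2.2.2.1, hwab.2.2.2.2.2 (s y 0) ?_⟩
        unfold com
        exact mem_filter.2 ⟨mem_univ _, h1, h2⟩
      · refine ⟨hwbc.2.2.1, hwbc.2.2.2.1 (s y 1) ?_⟩
        unfold com
        exact mem_filter.2 ⟨mem_univ _, h5, h6⟩
      · exact absurd rfl hi
  · intro y hy
    have hT := (mem_filter.1 hy).2
    have h1 : 0 < nn B Nr l y := by
      unfold nn
      exact card_pos.2 ⟨a, hT.1.1⟩
    exact_mod_cast h1
  · intro y hy i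
    have hT := (mem_filter.1 hy).2
    obtain ⟨⟨h1, h2, h3, h4⟩, ⟨h5, h6, h7, h8⟩, ⟨h9, h10, h11, h12⟩⟩ := hs y hT
    have hlt : ∀ z, T3 B Nr F l z a b c → Lt B Nr z a ∧ Lt B Nr z b := by
      intro z hz
      obtain ⟨⟨ha, hb, _⟩, _⟩ := hz
      exact ⟨hLs _ _ ((C6U_NS B Nr l z a).1 ha).2.2, hLs _ _ ((C6U_NS B Nr l z b).1 hb).2.2⟩
    have key : ∀ (j : Fin 3) (v : Fin n), (v, s y j) ∉ B →
        (∀ z, T3 B Nr F l z a b c → (z, s z j) ∈ B ∧ Lt B Nr z v) →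
        nn B Nr (s y j) v ≤ nn B Nr l y →
        (((univ.filter (fun y => T3 B Nr F l y a b c)).filter
          (fun z => s z j = s y j)).card : ℝ) ≤ (nn B Nr l y : ℝ) := by
      intro j v hv hz hle
      have : ((univ.filter (fun y => T3 B Nr F l y a b c)).filter
          (fun z => s z j = s y j)).card ≤ nn B Nr (s y j) v := by
        unfold nn
        apply card_le_card
        intro z hz'
        obtain ⟨hz1, hz2⟩ := mem_filter.1 hz'
        obtain ⟨hz3, hz4⟩ := hz z (mem_filter.1 hz1).2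
        rw [C6U_NS]
        exact ⟨hv, by rw [← hz2]; exact hz3, hz4⟩
      exact_mod_cast this.trans hle
    fin_cases i
    · exact key 0 b h3 (fun z hz => ⟨(hs z hz).1.2.1, (hlt z hz).2⟩) h4
    · exact key 1 b h7 (fun z hz => ⟨(hs z hz).2.1.2.1, (hlt z hz).2⟩) h8
    · exact key 2 a h11 (fun z hz => ⟨(hs z hz).2.2.2.1, (hlt z hz).1⟩) h12

end Pool.Agent.XG
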