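import Pool.Agent.helper14.XG.Spec

set_option autoImplicit false

namespace Pool.Agent.XG

open Finset Pool.Agent.XT

open Classical in
theorem HVA_cnt {n : ℕ} (C : Finset (Fin n)) (G : Finset (VV n)) (hG : G.card ≤ 6000)
    (hC : 30000 < C.card) : 24000 ≤ (C.filter (fun l => (Sum.inr l : VV n) ∉ G)).card := by
  have h1 : (C.filter (fun l => (Sum.inr l : VV n) ∈ G)).card ≤ G.card := by
    apply card_le_card_of_injOn (fun l => (Sum.inr l : VV n))
    · intro l hl
      exact (mem_filter.1 hl).2
    · intro a _ b _ hab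
      exact Sum.inr_injective hab
  have h2 := card_filter_add_card_filter_not (s := C) (fun l => (Sum.inr l : VV n) ∈ G)
  omega

theorem HVA (hSTL : STL_stmt) (hSEL : SEL_stmt) : HVA_stmt := by
  classical
  intro n B Nr F hSy x Y hx hY
  by_contra hcon
  push Not at hcon
  obtain ⟨Y', hY'Y, hY'c⟩ := exists_subset_card_eq (show 6003 ≤ Y.card by omega)
  obtain ⟨g, hg1, _, hg3⟩ := hSEL ({y // y ∈ Y'} × Fin 3) (Fin n) ∅ 1 24000
    (fun i => ((com B (x i.2) i.1.1).filter
      (fun l => (Sum.inr l : VV n) ∉ F (x 2) i.1.1)).map ⟨singleton, singleton_injective⟩)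
    (by
      intro i
      rw [card_map]
      apply HVA_cnt _ _ (hSy.fc _ _)
      have h1 := ((hY i.1.1 (hY'Y i.1.2)).1 i.2).2.2
      unfold KK at h1
      exact h1)
    (by
      intro i S hS
      obtain ⟨l, _, rfl⟩ := mem_map.1 hS
      simp)
    (by
      intro i S hS T hT hne
      obtain ⟨l, _, rfl⟩ := mem_map.1 (mem_coe.1 hS)
      obtain ⟨m, _, rfl⟩ := mem_map.1 (mem_coe.1 hT)
      simp only [Function.Embedding.coeFn_mk, Function.onFun, id] at hne ⊢
      rw [disjoint_singleton]
      rintro rfl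
      exact hne rfl)
    (by
      rw [Fintype.card_prod, Fintype.card_coe, hY'c, Fintype.card_fin]
      simp)
  have hl : ∀ i : {y // y ∈ Y'} × Fin 3, ∃ l, g i = {l} ∧ l ∈ com B (x i.2) i.1.1 ∧
      (Sum.inr l : VV n) ∉ F (x 2) i.1.1 := by
    intro i
    obtain ⟨l, hl, hl2⟩ := mem_map.1 (hg1 i)
    obtain ⟨h1, h2⟩ := mem_filter.1 hl
    exact ⟨l, hl2.symm, h1, h2⟩
  choose l hl1 hl2 hl3 using hl
  have hne : ∀ i j, i ≠ j → l i ≠ l j := by
    intro i j hij h
    have := hg3 i j hij
    rw [hl1, hl1, disjoint_singleton] at this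
    exact this h
  have hfin := hSTL n B Nr F hSy x Y'
    (fun y i => if h : y ∈ Y' then l (⟨y, h⟩, i) else x 0) hx (by
      intro y hy
      obtain ⟨h1, h2, h3⟩ := hY y (hY'Y hy)
      have hs : (fun i => if h : y ∈ Y' then l (⟨y, h⟩, i) else x 0) =
          fun i => l (⟨y, hy⟩, i) := by
        funext i
        rw [dif_pos hy]
      show Star B Nr F x y (fun i => if h : y ∈ Y' then l (⟨y, h⟩, i) else x 0)
      rw [hs]
      refine ⟨fun i => (h1 i).1, (h1 2).2.1, ?_, ?_, ?_⟩
      · intro i j hij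
        by_contra hc
        exact hne (⟨y, hy⟩, i) (⟨y, hy⟩, j) (by
          intro h
          exact hc (congrArg Prod.snd h)) hij
      · intro i
        have := hl2 (⟨y, hy⟩, i)
        unfold com at this
        exact (mem_filter.1 this).2
      · intro i hi
        refine ⟨?_, hl3 (⟨y, hy⟩, i)⟩
        fin_cases i
        · exact h2
        · exact h3
        · exact absurd rfl hi)
    (by
      intro y hy y' hy' hyy i j
      show (if h : y ∈ Y' then l (⟨y, h⟩, i) else x 0) ≠
        (if h : y' ∈ Y' then l (⟨y', h⟩, j) else x 0)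
      rw [dif_pos hy, dif_pos hy']
      apply hne
      intro h
      exact hyy (congrArg (fun z : {y // y ∈ Y'} × Fin 3 => z.1.1) h))
  omega

end Pool.Agent.XG
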