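import Pool.Agent.helper14.XG.Spec

set_option autoImplicit false

namespace Pool.Agent.XG

open Finset Pool.Agent.XT

theorem NWT_NS {n : ℕ} (B : FS n) (Nr : Fin n → Fin n → Prop) (l y x : Fin n) :
    x ∈ NS B Nr l y ↔ (y, l) ∉ B ∧ (x, l) ∈ B ∧ Lt B Nr x y := by
  unfold NS
  simp

theorem NWT_prod {α β : Type} [Fintype α] [Fintype β] (P : α × β → Prop) [DecidablePred P] :
    ((univ : Finset (α × β)).filter P).card =
      ∑ a : α, ((univ : Finset β).filter (fun b => P (a, b))).card := by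
  simp only [card_filter]
  rw [Fintype.sum_prod_type]

theorem NWT_quad {n : ℕ} (S : Fin n → Fin n → Finset (Fin n))
    (P : Fin n → Fin n → Fin n → Fin n → Prop)
    [∀ l y, DecidablePred (fun z : Fin n × Fin n => P l y z.1 z.2)] :
    ∃ Z : Finset (Fin n × Fin n × Fin n × Fin n), Z.card =
      ∑ e : Fin n × Fin n, ((S e.1 e.2 ×ˢ S e.1 e.2).filter
        (fun z => P e.1 e.2 z.1 z.2)).card ∧
    ∀ z, z ∈ Z ↔ (z.2.2.1 ∈ S z.1 z.2.1 ∧ z.2.2.2 ∈ S z.1 z.2.1 ∧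
      P z.1 z.2.1 z.2.2.1 z.2.2.2) := by
  classical
  refine ⟨univ.filter (fun z => z.2.2.1 ∈ S z.1 z.2.1 ∧ z.2.2.2 ∈ S z.1 z.2.1 ∧
    P z.1 z.2.1 z.2.2.1 z.2.2.2), ?_, fun z => by simp⟩
  rw [NWT_prod, Fintype.sum_prod_type]
  apply sum_congr rfl
  intro l _
  rw [NWT_prod]
  apply sum_congr rfl
  intro y _
  congr 1
  ext z
  simp only [mem_filter, mem_product, mem_univ, true_and, and_assoc]

theorem NWT (hBAS : BAS_stmt) (hHVW : HVW_stmt) (hNW1 : NW1_stmt) (hNW3 : NW3_stmt)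
    (hNW4 : NW4_stmt) (hSUM : SUM_stmt) : NWT_stmt := by
  classical
  intro ε hε
  obtain ⟨C, hC, hHV⟩ := hHVW ε hε
  refine ⟨1 + 500 + C + (KK : ℝ) + 24000 * (KK : ℝ), ?_⟩
  intro n D B Nr F hSy hDg hD
  obtain ⟨_, _, _, hWs, _, _, _, hcase⟩ := hBAS n B Nr F hSy
  obtain ⟨Z0, hZ0c, hZ0⟩ := NWT_quad (fun l y => NS B Nr l y) (fun _ _ a b => a = b)
  obtain ⟨Z1, hZ1⟩ : ∃ Z : Finset (Fin n × Fin n × Fin n × Fin n), Z = univ.filter (fun z =>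
    z.2.2.1 ∈ NS B Nr z.1 z.2.1 ∧ z.2.2.2 ∈ NS B Nr z.1 z.2.1 ∧ z.2.2.1 ≠ z.2.2.2 ∧
    ¬ Nr z.2.2.1 z.2.2.2) := ⟨_, rfl⟩
  obtain ⟨Zh, hZhc, hZh⟩ := NWT_quad (fun l y => NS B Nr l y) (fun _ _ a b => Hv B Nr a b)
  obtain ⟨Z3, hZ3⟩ : ∃ Z : Finset (Fin n × Fin n × Fin n × Fin n), Z = univ.filter (fun z =>
    z.2.2.1 ∈ NS B Nr z.1 z.2.1 ∧ z.2.2.2 ∈ NS B Nr z.1 z.2.1 ∧
    Lt B Nr z.2.2.1 z.2.2.2 ∧ ∃ m, (z.2.2.1, m) ∈ B ∧ (z.2.2.2, m) ∈ B ∧ (z.2.1, m) ∈ B) :=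
    ⟨_, rfl⟩
  obtain ⟨Z4, hZ4⟩ : ∃ Z : Finset (Fin n × Fin n × Fin n × Fin n), Z = univ.filter (fun z =>
    z.2.2.1 ∈ NS B Nr z.1 z.2.1 ∧ z.2.2.2 ∈ NS B Nr z.1 z.2.1 ∧
    Lt B Nr z.2.2.1 z.2.2.2 ∧ (Sum.inl z.2.2.2 ∈ F z.2.2.1 z.2.1 ∨
      ∃ m ∈ com B z.2.2.2 z.2.1, Sum.inr m ∈ F z.2.2.1 z.2.1)) := ⟨_, rfl⟩
  obtain ⟨Z5, hZ5⟩ : ∃ Z : Finset (Fin n × Fin n × Fin n × Fin n), Z = univ.filter (fun z =>
    z.2.2.1 ∈ NS B Nr z.1 z.2.1 ∧ z.2.2.2 ∈ NS B Nr z.1 z.2.1 ∧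
    Lt B Nr z.2.2.2 z.2.2.1 ∧ (Sum.inl z.2.2.1 ∈ F z.2.2.2 z.2.1 ∨
      ∃ m ∈ com B z.2.2.1 z.2.1, Sum.inr m ∈ F z.2.2.2 z.2.1)) := ⟨_, rfl⟩
  have c0 : Z0.card ≤ n * D ^ 3 := by
    refine le_trans ?_ (hSUM n D B Nr F hSy hDg)
    rw [hZ0c]
    apply sum_le_sum
    intro e _
    unfold nn
    apply card_le_card_of_injOn (fun z => z.1)
    · intro z hz
      exact (mem_product.1 (mem_filter.1 hz).1).1
    · intro z hz z' hz' h
      have h1 := (mem_filter.1 hz).2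
      have h2 := (mem_filter.1 hz').2
      simp only at h1 h2 h
      exact Prod.ext h (by rw [← h1, ← h2, h])
  have c1 : Z1.card ≤ 500 * n * D ^ 3 := by
    apply hNW1 n D B Nr F hSy hDg
    intro z hz
    rw [hZ1] at hz
    exact (mem_filter.1 hz).2
  have c3 : Z3.card ≤ KK * n * D ^ 3 := by
    apply hNW3 n D B Nr F hSy hDg
    intro z hz
    rw [hZ3] at hz
    exact (mem_filter.1 hz).2
  have c4 : Z4.card ≤ 12000 * KK * n * D ^ 3 := by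
    apply hNW4 n D B Nr F hSy hDg hD
    intro z hz
    rw [hZ4] at hz
    exact (mem_filter.1 hz).2
  have c5 : Z5.card ≤ 12000 * KK * n * D ^ 3 := by
    have h1 : Z5.card = (Z5.image (fun z => (z.1, z.2.1, z.2.2.2, z.2.2.1))).card := by
      rw [card_image_of_injective]
      intro z z' h
      simp only [Prod.mk.injEq] at h
      obtain ⟨h1, h2, h3, h4⟩ := h
      exact Prod.ext h1 (Prod.ext h2 (Prod.ext h4 h3))
    rw [h1]
    apply hNW4 n D B Nr F hSy hDg hD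
    intro z hz
    obtain ⟨w, hw, rfl⟩ := mem_image.1 hz
    rw [hZ5] at hw
    obtain ⟨a1, a2, a3, a4⟩ := (mem_filter.1 hw).2
    exact ⟨a2, a1, a3, a4⟩
  have ch : (Zh.card : ℝ) ≤ ε * (QQ B Nr : ℝ) + C * (n * (D : ℝ) ^ 3) := by
    rw [hZhc, Nat.cast_sum]
    calc ∑ e : Fin n × Fin n, ((((NS B Nr e.1 e.2 ×ˢ NS B Nr e.1 e.2).filter
          (fun z => Hv B Nr z.1 z.2)).card : ℕ) : ℝ)
        ≤ ∑ e : Fin n × Fin n, (ε * (nn B Nr e.1 e.2 : ℝ) ^ 2 + C * (nn B Nr e.1 e.2 : ℝ)) := by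
          apply sum_le_sum
          intro e _
          apply hHV n B Nr F hSy (NS B Nr e.1 e.2)
          intro z hz
          obtain ⟨h1, h2⟩ := mem_filter.1 hz
          obtain ⟨h3, h4⟩ := mem_product.1 h1
          exact ⟨h3, h4, h2⟩
      _ = ε * (QQ B Nr : ℝ) + C * ((∑ e : Fin n × Fin n, nn B Nr e.1 e.2 : ℕ) : ℝ) := by
          rw [sum_add_distrib, ← mul_sum, ← mul_sum]
          unfold QQ
          push_cast
          rfl
      _ ≤ ε * (QQ B Nr : ℝ) + C * (n * (D : ℝ) ^ 3) := by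
          have h1 := hSUM n D B Nr F hSy hDg
          have h2 : ((∑ e : Fin n × Fin n, nn B Nr e.1 e.2 : ℕ) : ℝ) ≤ (n : ℝ) * (D : ℝ) ^ 3 := by
            exact_mod_cast h1
          have := mul_le_mul_of_nonneg_left h2 hC.le
          linarith
  have hall : (∑ e : Fin n × Fin n, NW B Nr F e.1 e.2) ≤
      Z0.card + Z1.card + Zh.card + Z3.card + Z4.card + Z5.card := by
    unfold NW
    obtain ⟨Zw, hZwc, hZw⟩ := NWT_quad (fun l y => NS B Nr l y)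
      (fun _ y a b => ¬ Wk B Nr F y a b)
    have hsub : Zw ⊆ ((((Z0 ∪ Z1) ∪ Zh) ∪ Z3) ∪ Z4) ∪ Z5 := by
      intro z hz
      obtain ⟨ha, hb, hw⟩ := (hZw z).1 hz
      simp only [mem_union, hZ0, hZ1, hZh, hZ3, hZ4, hZ5, mem_filter, mem_univ, true_and]
      by_cases hab : z.2.2.1 = z.2.2.2
      · exact Or.inl (Or.inl (Or.inl (Or.inl (Or.inl ⟨ha, hb, hab⟩))))
      · obtain ⟨_, ha2, _⟩ := (NWT_NS B Nr _ _ _).1 ha
        obtain ⟨_, hb2, _⟩ := (NWT_NS B Nr _ _ _).1 hb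
        rcases hcase z.2.2.1 z.2.2.2 z.1 hab ha2 hb2 with hL | hH | hN
        · by_cases h3 : ∃ m, (z.2.2.1, m) ∈ B ∧ (z.2.2.2, m) ∈ B ∧ (z.2.1, m) ∈ B
          · exact Or.inl (Or.inl (Or.inr ⟨ha, hb, hL, h3⟩))
          · by_cases h4 : (Sum.inl z.2.2.2 ∈ F z.2.2.1 z.2.1 ∨
              ∃ m ∈ com B z.2.2.2 z.2.1, Sum.inr m ∈ F z.2.2.1 z.2.1)
            · exact Or.inl (Or.inr ⟨ha, hb, hL, h4⟩)
            · right
              have hL' : Lt B Nr z.2.2.2 z.2.2.1 := by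
                refine ⟨hL.1.symm, hSy.sy _ _ hL.2.1, ?_⟩
                have : com B z.2.2.2 z.2.2.1 = com B z.2.2.1 z.2.2.2 := by
                  unfold com
                  ext m
                  simp only [mem_filter]
                  tauto
                rw [this]
                exact hL.2.2
              refine ⟨ha, hb, hL', ?_⟩
              by_contra h5
              push Not at h3 h4 h5
              apply hw
              refine ⟨hL, ?_, h4.1, h4.2, h5.1, h5.2⟩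
              intro m hm
              exact h3 m hm.1 hm.2.1 hm.2.2
        · exact Or.inl (Or.inl (Or.inl (Or.inr ⟨ha, hb, hH⟩)))
        · exact Or.inl (Or.inl (Or.inl (Or.inl (Or.inr ⟨ha, hb, hab, hN⟩))))
    refine (le_of_eq ?_).trans ((card_le_card hsub).trans ?_)
    · rw [hZwc]
    have u5 := card_union_le ((((Z0 ∪ Z1) ∪ Zh) ∪ Z3) ∪ Z4) Z5
    have u4 := card_union_le (((Z0 ∪ Z1) ∪ Zh) ∪ Z3) Z4
    have u3 := card_union_le ((Z0 ∪ Z1) ∪ Zh) Z3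
    have u2 := card_union_le (Z0 ∪ Z1) Zh
    have u1 := card_union_le Z0 Z1
    omega
  have hall' : ((∑ e : Fin n × Fin n, NW B Nr F e.1 e.2 : ℕ) : ℝ) ≤
      (Z0.card : ℝ) + Z1.card + Zh.card + Z3.card + Z4.card + Z5.card := by exact_mod_cast hall
  have c0' : (Z0.card : ℝ) ≤ n * (D : ℝ) ^ 3 := by exact_mod_cast c0
  have c1' : (Z1.card : ℝ) ≤ 500 * n * (D : ℝ) ^ 3 := by exact_mod_cast c1
  have c3' : (Z3.card : ℝ) ≤ KK * n * (D : ℝ) ^ 3 := by exact_mod_cast c3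
  have c4' : (Z4.card : ℝ) ≤ 12000 * KK * n * (D : ℝ) ^ 3 := by exact_mod_cast c4
  have c5' : (Z5.card : ℝ) ≤ 12000 * KK * n * (D : ℝ) ^ 3 := by exact_mod_cast c5
  have hfin : (1 + 500 + C + (KK : ℝ) + 24000 * (KK : ℝ)) * n * (D : ℝ) ^ 3 =
      n * (D : ℝ) ^ 3 + 500 * n * (D : ℝ) ^ 3 + C * (n * (D : ℝ) ^ 3) + KK * n * (D : ℝ) ^ 3 +
      12000 * KK * n * (D : ℝ) ^ 3 + 12000 * KK * n * (D : ℝ) ^ 3 := by ring
  rw [hfin]
  linarith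

end Pool.Agent.XG
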