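import Pool.Agent.helper14.XG.Spec

set_option autoImplicit false

namespace Pool.Agent.XG

open Finset Pool.Agent.XT

theorem P4C_prod {α β : Type} [Fintype α] [Fintype β] (P : α × β → Prop) [DecidablePred P] :
    ((univ : Finset (α × β)).filter P).card =
      ∑ a : α, ((univ : Finset β).filter (fun b => P (a, b))).card := by
  simp only [card_filter]
  rw [Fintype.sum_prod_type]

open Classical in
theorem P4C_sq {α β : Type} [Fintype α] [Fintype β] (p : α → β → Prop) :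
    (((univ : Finset (α × β × β)).filter (fun w => p w.1 w.2.1 ∧ p w.1 w.2.2)).card) =
      ∑ a : α, ((univ : Finset β).filter (fun b => p a b)).card ^ 2 := by
  rw [P4C_prod]
  apply sum_congr rfl
  intro a _
  rw [pow_two, ← card_product]
  congr 1
  ext z
  simp only [mem_filter, mem_product, mem_univ, true_and]

theorem P4C (hLTP : LTP_stmt) (hP4A : P4A_stmt) : P4C_stmt := by
  classical
  intro κ hκ
  obtain ⟨C1, hC1⟩ := hLTP κ hκ
  obtain ⟨C0, hC0, hP⟩ := hP4A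
  have hκ4 : 0 < κ ^ 4 := by positivity
  refine ⟨max (max C1 1) (16 * C0 / κ ^ 4), max 1 (16 * C0 / κ ^ 4), le_max_left _ _, ?_⟩
  intro n D B Nr F hHst hSy hCD
  have hD0 : 0 < D := hHst.d0
  have hn0 : 0 < n := hHst.n0
  have hDg : Dg B D := ⟨hHst.pu, hHst.lu⟩
  have hDC1 : C1 ≤ D := (le_max_left _ _).trans ((le_max_left _ _).trans hCD)
  have hDC2 : 16 * C0 / κ ^ 4 ≤ D := (le_max_right _ _).trans hCD
  obtain ⟨t, ht⟩ : ∃ t : ℝ, t = max 1 (16 * C0 / κ ^ 4) := ⟨_, rfl⟩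
  have ht1 : 1 ≤ t := by rw [ht]; exact le_max_left _ _
  have ht2 : 16 * C0 / κ ^ 4 ≤ t := by rw [ht]; exact le_max_right _ _
  rw [← ht]
  have hnR : (0 : ℝ) < (n : ℝ) := by exact_mod_cast hn0
  have hDR : (0 : ℝ) < (D : ℝ) := by exact_mod_cast hD0
  -- 2-paths
  obtain ⟨p, hp⟩ : ∃ p : Fin n → Fin n × Fin n → Prop, ∀ x u, p x u ↔
    ((x, u.1) ∈ B ∧ (u.2, u.1) ∈ B ∧ Lt B Nr x u.2) := ⟨fun x u =>
      ((x, u.1) ∈ B ∧ (u.2, u.1) ∈ B ∧ Lt B Nr x u.2), fun _ _ => Iff.rfl⟩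
  have h1 := hC1 n D B Nr F hHst hSy hDC1
  have h2 : ((Finset.univ.filter (fun z : Fin n × Fin n × Fin n => (z.1, z.2.1) ∈ B ∧
      (z.2.2, z.2.1) ∈ B ∧ Lt B Nr z.1 z.2.2)).card) =
      ∑ x : Fin n, ((univ : Finset (Fin n × Fin n)).filter (fun u => p x u)).card := by
    rw [P4C_prod]
    apply sum_congr rfl
    intro x _
    congr 1
    ext u
    simp only [mem_filter, mem_univ, true_and, hp]
  rw [h2] at h1
  -- all 4-paths
  obtain ⟨Wl, hWl⟩ : ∃ W : Finset (Fin n × (Fin n × Fin n) × (Fin n × Fin n)), W =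
    univ.filter (fun w => p w.1 w.2.1 ∧ p w.1 w.2.2) := ⟨_, rfl⟩
  have h3 : Wl.card = ∑ x : Fin n, ((univ : Finset (Fin n × Fin n)).filter
      (fun u => p x u)).card ^ 2 := by
    rw [hWl]
    exact P4C_sq p
  have h4 : κ ^ 4 / 4 * n * (D : ℝ) ^ 4 ≤ (Wl.card : ℝ) := by
    have h5 := sq_sum_le_card_mul_sum_sq (s := (univ : Finset (Fin n)))
      (f := fun x => ((((univ : Finset (Fin n × Fin n)).filter (fun u => p x u)).card : ℕ) : ℝ))
    rw [card_univ, Fintype.card_fin] at h5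
    have h6 : (κ ^ 2 / 2 * n * (D : ℝ) ^ 2) ^ 2 ≤ (∑ x : Fin n,
        ((((univ : Finset (Fin n × Fin n)).filter (fun u => p x u)).card : ℕ) : ℝ)) ^ 2 := by
      apply pow_le_pow_left₀ (by positivity)
      rw [← Nat.cast_sum]
      exact h1
    have h7 : ((Wl.card : ℕ) : ℝ) = ∑ x : Fin n,
        ((((univ : Finset (Fin n × Fin n)).filter (fun u => p x u)).card : ℕ) : ℝ) ^ 2 := by
      rw [h3]
      push_cast
      rfl
    rw [h7]
    have h8 := h6.trans h5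
    have h9 : (κ ^ 2 / 2 * n * (D : ℝ) ^ 2) ^ 2 = n * (κ ^ 4 / 4 * n * (D : ℝ) ^ 4) := by ring
    rw [h9] at h8
    exact le_of_mul_le_mul_left h8 hnR
  -- symmetry of light pairs
  have hLs : ∀ x y, Lt B Nr x y → Lt B Nr y x := by
    intro x y h
    have hc : com B y x = com B x y := by
      unfold com
      ext m
      simp only [mem_filter]
      tauto
    refine ⟨h.1.symm, hSy.sy _ _ h.2.1, ?_⟩
    rw [hc]
    exact h.2.2
  obtain ⟨Z, hZ⟩ : ∃ Z : Finset (Fin n × Fin n × Fin n × Fin n × Fin n), Z =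
    univ.filter (fun z => (z.1, z.2.1) ∈ B ∧ (z.2.2.1, z.2.1) ∈ B ∧
      (z.2.2.1, z.2.2.2.1) ∈ B ∧
    (z.2.2.2.2, z.2.2.2.1) ∈ B ∧ Lt B Nr z.1 z.2.2.1 ∧ Lt B Nr z.2.2.1 z.2.2.2.2 ∧
    ¬ Ty B Nr F t z.1 z.2.1 z.2.2.1 z.2.2.2.1 z.2.2.2.2) := ⟨_, rfl⟩
  have hZc := hP n D B Nr F hSy hDg hD0 t ht1 Z (by
    intro z hz
    rw [hZ] at hz
    exact (mem_filter.1 hz).2)
  obtain ⟨T, hT⟩ : ∃ T : Finset ((Fin n × Fin n) × (Fin n × Fin n × Fin n)), T =
    univ.filter (fun z => Ty B Nr F t z.1.1 z.2.1 z.2.2.1 z.2.2.2 z.1.2) := ⟨_, rfl⟩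
  have hTc : T.card = ∑ e : Fin n × Fin n, (PP B Nr F t e.1 e.2).card := by
    rw [hT, P4C_prod]
    rfl
  have hsplit : Wl.card ≤ T.card + Z.card := by
    have h5 := card_filter_add_card_filter_not (s := Wl) (fun w =>
      Ty B Nr F t w.2.1.2 w.2.1.1 w.1 w.2.2.1 w.2.2.2)
    rw [← h5]
    apply Nat.add_le_add
    · apply card_le_card_of_injOn (fun w => ((w.2.1.2, w.2.2.2), (w.2.1.1, w.1, w.2.2.1)))
      · intro w hw
        have := (mem_filter.1 hw).2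
        rw [hT]
        exact mem_filter.2 ⟨mem_univ _, this⟩
      · intro w _ w' _ h
        simp only [Prod.mk.injEq] at h
        obtain ⟨⟨g1, g2⟩, g3, g4, g5⟩ := h
        exact Prod.ext g4 (Prod.ext (Prod.ext g3 g1) (Prod.ext g5 g2))
    · apply card_le_card_of_injOn (fun w => (w.2.1.2, w.2.1.1, w.1, w.2.2.1, w.2.2.2))
      · intro w hw
        obtain ⟨hw1, hw2⟩ := mem_filter.1 hw
        rw [hWl] at hw1
        obtain ⟨hp1, hp2⟩ := (mem_filter.1 hw1).2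
        rw [hp] at hp1 hp2
        rw [hZ]
        exact mem_filter.2 ⟨mem_univ _, hp1.2.1, hp1.1, hp2.1, hp2.2.1, hLs _ _ hp1.2.2,
          hp2.2.2, hw2⟩
      · intro w _ w' _ h
        simp only [Prod.mk.injEq] at h
        obtain ⟨g1, g2, g3, g4, g5⟩ := h
        exact Prod.ext g3 (Prod.ext (Prod.ext g2 g1) (Prod.ext g4 g5))
  have hsplit' : (Wl.card : ℝ) ≤ (T.card : ℝ) + (Z.card : ℝ) := by exact_mod_cast hsplit
  rw [← hTc]
  -- numbers
  have e1 : C0 * (n * (D : ℝ) ^ 3) ≤ κ ^ 4 / 16 * n * (D : ℝ) ^ 4 := by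
    have h5 : 16 * C0 ≤ D * κ ^ 4 := by
      rw [div_le_iff₀ hκ4] at hDC2
      exact hDC2
    have h6 : C0 ≤ κ ^ 4 / 16 * D := by linarith
    have h7 : C0 * (n * (D : ℝ) ^ 3) ≤ κ ^ 4 / 16 * D * (n * (D : ℝ) ^ 3) :=
      mul_le_mul_of_nonneg_right h6 (by positivity)
    refine h7.trans (le_of_eq ?_)
    ring
  have e2 : C0 * (n * (D : ℝ) ^ 4 / t) ≤ κ ^ 4 / 16 * n * (D : ℝ) ^ 4 := by
    have h5 : 16 * C0 ≤ t * κ ^ 4 := by
      rw [div_le_iff₀ hκ4] at ht2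
      exact ht2
    have htp : 0 < t := by linarith
    have h6 : C0 / t ≤ κ ^ 4 / 16 := by
      rw [div_le_iff₀ htp]
      linarith
    have h7 : C0 * (n * (D : ℝ) ^ 4 / t) = C0 / t * (n * (D : ℝ) ^ 4) := by ring
    rw [h7]
    have h8 : C0 / t * (n * (D : ℝ) ^ 4) ≤ κ ^ 4 / 16 * (n * (D : ℝ) ^ 4) :=
      mul_le_mul_of_nonneg_right h6 (by positivity)
    refine h8.trans (le_of_eq ?_)
    ring
  have e3 : C0 * (n * (D : ℝ) ^ 3 + n * (D : ℝ) ^ 4 / t) =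
      C0 * (n * (D : ℝ) ^ 3) + C0 * (n * (D : ℝ) ^ 4 / t) := by ring
  rw [e3] at hZc
  linarith

end Pool.Agent.XG
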