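import Pool.Agent.helper14.XG.Spec

set_option autoImplicit false

namespace Pool.Agent.XG

open Finset Pool.Agent.XT

theorem STW_bu {α β : Type} [DecidableEq α] [DecidableEq β] (S : Finset α) (T : α → Finset β)
    (f : β → ℝ) (hf : ∀ p ∈ S, ∀ y ∈ T p, 0 ≤ f y) :
    ∑ y ∈ S.biUnion T, f y ≤ ∑ p ∈ S, ∑ y ∈ T p, f y := by
  induction S using Finset.induction_on with
  | empty => simp
  | insert a S ha ih =>
    rw [biUnion_insert, sum_insert ha]
    have h1 := sum_union_inter (s₁ := T a) (s₂ := S.biUnion T) (f := f)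
    have h2 : 0 ≤ ∑ y ∈ T a ∩ S.biUnion T, f y :=
      sum_nonneg (fun y hy => hf a (mem_insert_self _ _) y (mem_inter.1 hy).1)
    have h3 := ih (fun p hp y hy => hf p (mem_insert_of_mem hp) y hy)
    linarith

theorem STW (hSTL : STL_stmt) : STW_stmt := by
  classical
  intro n B Nr F hSy x Y s N hx hst hN hcnt
  -- a maximal disjoint family
  obtain ⟨Y0, hY0, hmax⟩ := exists_max_image (Y.powerset.filter
    (fun Z => ∀ y ∈ Z, ∀ y' ∈ Z, y ≠ y' → ∀ i j, s y i ≠ s y' j)) (fun Z => Z.card)
    ⟨∅, by simp⟩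
  obtain ⟨h1, h2⟩ := mem_filter.1 hY0
  have hY0Y := mem_powerset.1 h1
  have hc0 : Y0.card ≤ 6002 := hSTL n B Nr F hSy x Y0 s hx (fun y hy => hst y (hY0Y hy)) h2
  obtain ⟨L, hL⟩ : ∃ L : Finset (Fin n), L =
    (Y0 ×ˢ (univ : Finset (Fin 3))).image (fun p => s p.1 p.2) := ⟨_, rfl⟩
  have hLc : L.card ≤ 18006 := by
    rw [hL]
    refine card_image_le.trans ?_
    rw [card_product, card_univ, Fintype.card_fin]
    omega
  have hmemL : ∀ y ∈ Y0, ∀ i, s y i ∈ L := by
    intro y hy i
    rw [hL]
    exact mem_image.2 ⟨(y, i), mem_product.2 ⟨hy, mem_univ _⟩, rfl⟩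
  have hcov : ∀ y ∈ Y, ∃ i, s y i ∈ L := by
    intro y hy
    by_cases hy0 : y ∈ Y0
    · exact ⟨0, hmemL y hy0 0⟩
    · by_contra hcon
      push Not at hcon
      have hin : insert y Y0 ∈ Y.powerset.filter
          (fun Z => ∀ y ∈ Z, ∀ y' ∈ Z, y ≠ y' → ∀ i j, s y i ≠ s y' j) := by
        rw [mem_filter, mem_powerset]
        refine ⟨insert_subset hy hY0Y, ?_⟩
        intro a ha b hb hab i j
        rcases mem_insert.1 ha with ha2 | ha2
        · rcases mem_insert.1 hb with hb2 | hb2
          · exact absurd (ha2.trans hb2.symm) hab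
          · intro h
            exact hcon i (by rw [← ha2, h]; exact hmemL b hb2 j)
        · rcases mem_insert.1 hb with hb2 | hb2
          · intro h
            exact hcon j (by rw [← hb2, ← h]; exact hmemL a ha2 i)
          · exact h2 a ha2 b hb2 hab i j
      have := hmax _ hin
      simp only [card_insert_of_notMem hy0] at this
      omega
  have hone : ∀ (l : Fin n) (i : Fin 3), ∑ y ∈ Y.filter (fun z => s z i = l), 1 / N y ≤ 1 := by
    intro l i
    rcases (Y.filter (fun z => s z i = l)).eq_empty_or_nonempty with he | hne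
    · rw [he]
      simp
    · have hpos : (0 : ℝ) < ((Y.filter (fun z => s z i = l)).card : ℝ) := by
        exact_mod_cast card_pos.2 hne
      calc ∑ y ∈ Y.filter (fun z => s z i = l), 1 / N y
          ≤ ∑ _y ∈ Y.filter (fun z => s z i = l),
              1 / ((Y.filter (fun z => s z i = l)).card : ℝ) := by
            apply sum_le_sum
            intro y hy
            obtain ⟨hyY, hyl⟩ := mem_filter.1 hy
            have h3 := hcnt y hyY i
            rw [hyl] at h3
            exact one_div_le_one_div_of_le hpos h3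
        _ = 1 := by
            rw [sum_const, nsmul_eq_mul]
            field_simp
  have hsub : Y ⊆ (L ×ˢ (univ : Finset (Fin 3))).biUnion
      (fun p => Y.filter (fun z => s z p.2 = p.1)) := by
    intro y hy
    obtain ⟨i, hi⟩ := hcov y hy
    exact mem_biUnion.2 ⟨(s y i, i), mem_product.2 ⟨hi, mem_univ _⟩, mem_filter.2 ⟨hy, rfl⟩⟩
  have hnn : ∀ y ∈ Y, 0 ≤ 1 / N y := by
    intro y hy
    have := hN y hy
    positivity
  calc ∑ y ∈ Y, 1 / N y
      ≤ ∑ y ∈ (L ×ˢ (univ : Finset (Fin 3))).biUnion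
          (fun p => Y.filter (fun z => s z p.2 = p.1)), 1 / N y := by
        apply sum_le_sum_of_subset_of_nonneg hsub
        intro y hy _
        obtain ⟨p, _, hp⟩ := mem_biUnion.1 hy
        exact hnn y (mem_filter.1 hp).1
    _ ≤ ∑ p ∈ L ×ˢ (univ : Finset (Fin 3)), ∑ y ∈ Y.filter (fun z => s z p.2 = p.1), 1 / N y := by
        apply STW_bu
        intro p _ y hy
        exact hnn y (mem_filter.1 hy).1
    _ ≤ ∑ _p ∈ L ×ˢ (univ : Finset (Fin 3)), (1 : ℝ) := sum_le_sum (fun p _ => hone p.1 p.2)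
    _ = (L.card : ℝ) * 3 := by
        rw [sum_const, card_product, card_univ, Fintype.card_fin]
        simp
    _ ≤ 60020 := by
        have : (L.card : ℝ) ≤ 18006 := by exact_mod_cast hLc
        linarith

end Pool.Agent.XG
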