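import Pool.Agent.helper14.XG.Spec

set_option autoImplicit false

namespace Pool.Agent.XG

open Finset Pool.Agent.XT

theorem C6E_NS {n : ℕ} (B : FS n) (Nr : Fin n → Fin n → Prop) (l y x : Fin n) :
    x ∈ NS B Nr l y ↔ (y, l) ∉ B ∧ (x, l) ∈ B ∧ Lt B Nr x y := by
  unfold NS
  simp

theorem C6E_prod {α β : Type} [Fintype α] [Fintype β] (P : α × β → Prop) [DecidablePred P] :
    ((univ : Finset (α × β)).filter P).card =
      ∑ a : α, ((univ : Finset β).filter (fun b => P (a, b))).card := by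
  simp only [card_filter]
  rw [Fintype.sum_prod_type]

theorem C6E_TR {n : ℕ} (B : FS n) (Nr : Fin n → Fin n → Prop)
    (t : (Fin 3 → Fin n) × (Fin 3 → Fin n)) :
    t ∈ TR B Nr ↔ ((∀ i j, i ≠ j → (t.1 j, t.2 i) ∈ B ∧ Lt B Nr (t.1 i) (t.1 j)) ∧
    ∀ i, (t.1 i, t.2 i) ∉ B) := by
  unfold TR
  simp only [mem_filter, mem_univ, true_and]

theorem C6E (hBAS : BAS_stmt) (hC6R : C6R_stmt) : C6E_stmt := by
  classical
  intro n B Nr F hSy
  obtain ⟨_, hLs, _, _, _, _, _, _⟩ := hBAS n B Nr F hSy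
  have hcom : ∀ x y l, l ∈ com B x y ↔ (x, l) ∈ B ∧ (y, l) ∈ B := by
    intro x y l
    unfold com
    simp
  -- part 1
  have h1 : QQ B Nr ≤ (∑ e : Fin n × Fin n, NW B Nr F e.1 e.2) + (TR B Nr).card := by
    have e1 : QQ B Nr = ∑ e : Fin n × Fin n, (NW B Nr F e.1 e.2 +
        ((NS B Nr e.1 e.2 ×ˢ NS B Nr e.1 e.2).filter (fun z => Wk B Nr F e.2 z.1 z.2)).card) := by
      unfold QQ
      apply sum_congr rfl
      intro e _
      have h2 := card_filter_add_card_filter_not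
        (s := NS B Nr e.1 e.2 ×ˢ NS B Nr e.1 e.2) (fun z => Wk B Nr F e.2 z.1 z.2)
      rw [card_product] at h2
      unfold NW nn
      rw [pow_two, ← h2, add_comm]
    rw [e1, sum_add_distrib]
    apply Nat.add_le_add_left
    have e2 : ∑ e : Fin n × Fin n,
        ((NS B Nr e.1 e.2 ×ˢ NS B Nr e.1 e.2).filter (fun z => Wk B Nr F e.2 z.1 z.2)).card =
        ((univ : Finset ((Fin n × Fin n) × (Fin n × Fin n))).filter (fun q =>
          q.2.1 ∈ NS B Nr q.1.1 q.1.2 ∧ q.2.2 ∈ NS B Nr q.1.1 q.1.2 ∧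
            Wk B Nr F q.1.2 q.2.1 q.2.2)).card := by
      rw [C6E_prod]
      apply sum_congr rfl
      intro e _
      congr 1
      ext z
      simp only [mem_filter, mem_product, mem_univ, true_and, and_assoc]
    rw [e2]
    have hch : ∀ q : (Fin n × Fin n) × (Fin n × Fin n), ∃ s m : Fin n,
        (q.2.1 ∈ NS B Nr q.1.1 q.1.2 ∧ q.2.2 ∈ NS B Nr q.1.1 q.1.2 ∧
            Wk B Nr F q.1.2 q.2.1 q.2.2) →
        s ∈ com B q.2.1 q.1.2 ∧ m ∈ com B q.2.2 q.1.2 := by
      intro q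
      by_cases hq : q.2.1 ∈ NS B Nr q.1.1 q.1.2 ∧ q.2.2 ∈ NS B Nr q.1.1 q.1.2 ∧
            Wk B Nr F q.1.2 q.2.1 q.2.2
      · obtain ⟨s, hs⟩ := ((C6E_NS B Nr _ _ _).1 hq.1).2.2.2.2.1
        obtain ⟨m, hm⟩ := ((C6E_NS B Nr _ _ _).1 hq.2.1).2.2.2.2.1
        exact ⟨s, m, fun _ => ⟨hs, hm⟩⟩
      · exact ⟨q.1.1, q.1.1, fun h => absurd h hq⟩
    choose s m hsm using hch
    apply card_le_card_of_injOn
      (fun q => ((![q.1.2, q.2.1, q.2.2] : Fin 3 → Fin n), (![q.1.1, m q, s q] : Fin 3 → Fin n)))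
    · intro q hq
      have hq' := (mem_filter.1 hq).2
      obtain ⟨hs, hm⟩ := hsm q hq'
      obtain ⟨ha, hb, hw⟩ := hq'
      obtain ⟨a1, a2, a3⟩ := (C6E_NS B Nr _ _ _).1 ha
      obtain ⟨b1, b2, b3⟩ := (C6E_NS B Nr _ _ _).1 hb
      rw [hcom] at hs hm
      rw [mem_coe, C6E_TR]
      refine ⟨?_, ?_⟩
      · intro i j hij
        fin_cases i <;> fin_cases j
        · exact absurd rfl hij
        · exact ⟨a2, hLs _ _ a3⟩
        · exact ⟨b2, hLs _ _ b3⟩
        · exact ⟨hm.2, a3⟩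
        · exact absurd rfl hij
        · exact ⟨hm.1, hw.1⟩
        · exact ⟨hs.2, b3⟩
        · exact ⟨hs.1, hLs _ _ hw.1⟩
        · exact absurd rfl hij
      · intro i
        fin_cases i
        · exact a1
        · intro h
          exact hw.2.1 (m q) ⟨h, hm.1, hm.2⟩
        · intro h
          exact hw.2.1 (s q) ⟨hs.1, h, hs.2⟩
    · intro q hq q' hq' h
      have h2 := congrArg Prod.fst h
      have h3 := congrArg Prod.snd h
      have g0 := congrFun h2 0
      have g1 := congrFun h2 1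
      have g2 := congrFun h2 2
      have g3 := congrFun h3 0
      simp only [Matrix.cons_val_zero, Matrix.cons_val_one] at g0 g1 g3
      have g2' : q.2.2 = q'.2.2 := g2
      exact Prod.ext (Prod.ext g3 g0) (Prod.ext g1 g2')
  -- part 2
  have h2 : (TRM B Nr).card ≤ KK ^ 2 * ((∑ e : Fin n × Fin n, ES B Nr F e.1 e.2) +
      ∑ e : Fin n × Fin n, NW B Nr F e.1 e.2) := by
    have hfib := card_le_mul_card_image (f := fun t : (Fin 3 → Fin n) × (Fin 3 → Fin n) =>
      ((t.2 0, t.1 0), (t.1 1, t.1 2))) (TRM B Nr) (KK ^ 2) (by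
      intro q _
      obtain ⟨⟨l, y⟩, ⟨a, b⟩⟩ := q
      have hsub : ∀ t ∈ (TRM B Nr).filter (fun t : (Fin 3 → Fin n) × (Fin 3 → Fin n) =>
          ((t.2 0, t.1 0), (t.1 1, t.1 2)) = ((l, y), (a, b))), t.2 0 = l ∧ t.1 0 = y ∧
          t.1 1 = a ∧ t.1 2 = b ∧ t.2 1 ∈ com B b y ∧ t.2 2 ∈ com B a y ∧ Lt B Nr b y ∧
          Lt B Nr a y := by
        intro t ht
        obtain ⟨ht1, ht2⟩ := mem_filter.1 ht
        simp only [Prod.mk.injEq] at ht2
        obtain ⟨⟨g1, g2⟩, g3, g4⟩ := ht2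
        have ht3 := (C6E_TR B Nr t).1 (mem_filter.1 ht1).1
        refine ⟨g1, g2, g3, g4, ?_, ?_, ?_, ?_⟩
        · rw [hcom, ← g4, ← g2]
          exact ⟨(ht3.1 1 2 (by decide)).1, (ht3.1 1 0 (by decide)).1⟩
        · rw [hcom, ← g3, ← g2]
          exact ⟨(ht3.1 2 1 (by decide)).1, (ht3.1 2 0 (by decide)).1⟩
        · rw [← g4, ← g2]
          exact (ht3.1 2 0 (by decide)).2
        · rw [← g3, ← g2]
          exact (ht3.1 1 0 (by decide)).2
      rcases ((TRM B Nr).filter (fun t : (Fin 3 → Fin n) × (Fin 3 → Fin n) =>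
          ((t.2 0, t.1 0), (t.1 1, t.1 2)) = ((l, y), (a, b)))).eq_empty_or_nonempty with he | hne
      · rw [he]
        simp
      obtain ⟨t₀, ht₀⟩ := hne
      obtain ⟨_, _, _, _, _, _, hby, hay⟩ := hsub t₀ ht₀
      calc ((TRM B Nr).filter (fun t : (Fin 3 → Fin n) × (Fin 3 → Fin n) =>
          ((t.2 0, t.1 0), (t.1 1, t.1 2)) = ((l, y), (a, b)))).card
          ≤ (com B b y ×ˢ com B a y).card := by
            apply card_le_card_of_injOn (fun t => (t.2 1, t.2 2))
            · intro t ht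
              obtain ⟨_, _, _, _, g5, g6, _⟩ := hsub t ht
              exact mem_product.2 ⟨g5, g6⟩
            · intro t ht t' ht' h
              obtain ⟨g1, g2, g3, g4, _⟩ := hsub t ht
              obtain ⟨k1, k2, k3, k4, _⟩ := hsub t' ht'
              simp only [Prod.mk.injEq] at h
              apply Prod.ext
              · funext i
                fin_cases i
                · exact g2.trans k2.symm
                · exact g3.trans k3.symm
                · exact g4.trans k4.symm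
              · funext i
                fin_cases i
                · exact g1.trans k1.symm
                · exact h.1
                · exact h.2
        _ = (com B b y).card * (com B a y).card := card_product _ _
        _ ≤ KK * KK := Nat.mul_le_mul hby.2.2.2 hay.2.2.2
        _ = KK ^ 2 := by ring)
    refine hfib.trans (Nat.mul_le_mul_left _ ?_)
    have e3 : ∑ e : Fin n × Fin n, ES B Nr F e.1 e.2 =
        ((univ : Finset ((Fin n × Fin n) × (Fin n × Fin n))).filter (fun q =>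
          Ed B Nr F q.1.1 q.1.2 q.2.1 q.2.2)).card := by
      rw [C6E_prod]
      rfl
    have e4 : ∑ e : Fin n × Fin n, NW B Nr F e.1 e.2 =
        ((univ : Finset ((Fin n × Fin n) × (Fin n × Fin n))).filter (fun q =>
          q.2.1 ∈ NS B Nr q.1.1 q.1.2 ∧ q.2.2 ∈ NS B Nr q.1.1 q.1.2 ∧
            ¬ Wk B Nr F q.1.2 q.2.1 q.2.2)).card := by
      rw [C6E_prod]
      apply sum_congr rfl
      intro e _
      unfold NW
      congr 1
      ext z
      simp only [mem_filter, mem_product, mem_univ, true_and, and_assoc]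
    rw [e3, e4]
    refine (card_le_card ?_).trans (card_union_le _ _)
    intro q hq
    obtain ⟨t, ht, rfl⟩ := mem_image.1 hq
    obtain ⟨ht1, ht2⟩ := mem_filter.1 ht
    have ht3 := (C6E_TR B Nr t).1 ht1
    have ha : t.1 1 ∈ NS B Nr (t.2 0) (t.1 0) := (C6E_NS B Nr _ _ _).2
      ⟨ht3.2 0, (ht3.1 0 1 (by decide)).1, (ht3.1 1 0 (by decide)).2⟩
    have hb : t.1 2 ∈ NS B Nr (t.2 0) (t.1 0) := (C6E_NS B Nr _ _ _).2
      ⟨ht3.2 0, (ht3.1 0 2 (by decide)).1, (ht3.1 2 0 (by decide)).2⟩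
    by_cases hw : Wk B Nr F (t.1 0) (t.1 1) (t.1 2)
    · apply mem_union_left
      rw [mem_filter]
      refine ⟨mem_univ _, ha, hb, hw, t.2 2, t.2 1, (ht3.1 2 1 (by decide)).1,
        (ht3.1 2 0 (by decide)).1, ht3.2 2, (ht3.1 1 2 (by decide)).1, (ht3.1 1 0 (by decide)).1,
        ht3.2 1, ht2 2, ht2 1⟩
    · apply mem_union_right
      rw [mem_filter]
      exact ⟨mem_univ _, ha, hb, hw⟩
  have h3 := hC6R n B Nr
  calc QQ B Nr ≤ (∑ e : Fin n × Fin n, NW B Nr F e.1 e.2) + (TR B Nr).card := h1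
    _ ≤ (∑ e : Fin n × Fin n, NW B Nr F e.1 e.2) + 3 * (KK ^ 2 * ((∑ e : Fin n × Fin n,
        ES B Nr F e.1 e.2) + ∑ e : Fin n × Fin n, NW B Nr F e.1 e.2)) := by
        apply Nat.add_le_add_left
        exact h3.trans (Nat.mul_le_mul_left _ h2)
    _ = _ := by ring

end Pool.Agent.XG
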